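import Mathlib
import Pool.Agent.Run7.h375.BE.Asm
import Pool.Agent.Run7.h375.BE.Par

/-!
# The equivariant Beilinson conjecture for abelian extensions: reduction to cyclic extensions

The definitions of `IsLeadingAt`, `V`, `VPlus`, `BPlus`, `RegSystem`, `IsRegMap`, `Equality`,
`SiegelKlingen`, `UnramifiedSplit`, `PrimePower`, `Mixed` are in `Pool.Agent.Run7.h375.BE.Def`,
those of `Ext`, `G`, `emb`, `IsChr`, `Pair`, `logTerm`, `lin`, `IsCC` in
`Pool.Agent.K4H74.SC.Core`; `Abelian E` says that the group `G E` is commutative.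
-/

set_option autoImplicit false

namespace Pool.Agent.Results.MP_a93ca1_nt.CyclicReduction

open NumberField Pool.Agent.K4H74.SK Pool.Agent.K4H77 Pool.Agent.Run7.h375.BE
open Pool.Agent.Run7.h508.SQ (NoC4)

/-- No subgroup of `Gal(N/ℚ)` which contains a complex conjugation has a cyclic quotient of
order `4`. -/
def NoQuotientFour (N : Type) [Field N] [NumberField N] : Prop :=
  ∀ H : Subgroup (N ≃ₐ[ℚ] N), (∃ t ∈ H, ∃ φ : N →+* ℂ, ∀ x, φ (t x) = star (φ x)) →
    ∀ ψ : H →* ℂˣ, ψ ^ 4 = 1 → ψ ^ 2 = 1

/-- `K` is totally complex; or `K` is totally real and `Gal(L/K)` contains only one complex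
conjugation (for `L/K` abelian: `L` is totally real or a CM field); or `L` is contained in a Galois
extension `N` of `ℚ` with the property `NoQuotientFour`, with `√-1` in `N` if `k` is even. -/
def Good (k : ℕ) (E : Ext) : Prop :=
  IsTotallyComplex E.K ∨
    (IsTotallyReal E.K ∧ ∀ t t' : G E, IsCC t → IsCC t' → t = t') ∨
    ∃ (N : Type) (_ : Field N) (_ : NumberField N) (_ : Algebra E.L N), IsGalois ℚ N ∧
      NoQuotientFour N ∧ (Even k → ∃ j : N, j * j = -1)

/-- Let `k > 1`, and let `c` be a system of leading coefficients at `s = 1-k` of the Artin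
L-functions (such systems exist; the only one is `L*(χ, 1-k)`). Let `H(L) ⊆ V⁺ ⊗ ℂ` be a system of
rational subspaces with the formal properties of the images of `K_(2k-1)(L) ⊗ ℚ` under Borel's
regulator (`RegSystem k`). Suppose that the conclusions of Borel's theorem (the equality for `G`
trivial) and of the theorem of Siegel and Klingen are true for `H` and `c`. Let `m ≥ 1`.

(1) Beilinson's equality is true up to torsion (a positive power of it is true) for all abelian
extensions if and only if it is true up to torsion for the cyclic extensions `L/K` with `K` totally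
complex, unramified at all primes, in which the primes above `m` split completely.

(2) It is true for all abelian extensions with the property `Good k`, in particular if `K` is
totally complex and if `L` is totally real or a CM field, if and only if it is true for the cyclic
extensions with `K` totally complex such that for one prime number `l` all inertia groups, and the
decomposition groups of the primes above `m`, are `l`-groups. If so, then its square is true for all
abelian extensions.

(3) It is true for all abelian extensions if and only if it is true for the cyclic extensions of (2)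
and for the cyclic extensions of degree `4, 8, 16, …` of the fields which are neither totally real
nor totally complex, whose real places are unramified (`k` odd), respectively ramified (`k`
even). -/
theorem result {k : ℕ} (hk : 2 ≤ k) :
    -- leading coefficients
    (∃ c : Pair → ℂ, IsLeadingAt (1 - (k : ℂ)) c) ∧
    -- the isomorphisms in the definition of `Equality` exist
    (∀ (S : RegSystem k) (E : Ext), ∃ Φ : V E.L →ₗ[ℂ] V E.L, IsRegMap S Φ) ∧
    ∀ (S : RegSystem k) (c : Pair → ℂ), IsLeadingAt (1 - (k : ℂ)) c →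
      -- the conclusion of Borel's theorem
      (∀ E : Ext, (∀ g : G E, g = 1) → Equality S c 1 E) →
      -- the conclusion of the theorem of Siegel and Klingen
      SiegelKlingen k c →
      ∀ m : ℕ, m ≠ 0 →
        -- (1)
        ((∀ E : Ext, Abelian E → ∃ n : ℕ, n ≠ 0 ∧ Equality S c n E) ↔
          ∀ E : Ext, UnramifiedSplit m E → ∃ n : ℕ, n ≠ 0 ∧ Equality S c n E) ∧
        -- (2)
        ((∀ E : Ext, Abelian E → Good k E → Equality S c 1 E) ↔
          ∀ E : Ext, PrimePower m E → Equality S c 1 E) ∧
        ((∀ E : Ext, PrimePower m E → Equality S c 1 E) →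
          ∀ E : Ext, Abelian E → Equality S c 2 E) ∧
        -- (3)
        ((∀ E : Ext, Abelian E → Equality S c 1 E) ↔
          ∀ E : Ext, PrimePower m E ∨ Mixed k E → Equality S c 1 E) := by
  refine ⟨exists_isLeadingAt _, fun S E => exists_regMap S E, fun S c hc hB hSK m hm => ?_⟩
  have he : ((-1 : ℂˣ) ^ k) = 1 ∨ ((-1 : ℂˣ) ^ k) = -1 := neg_one_pow_eq_or _ k
  have hR := allInv_one hc hB
  have hC := allInv_crit (S := S) hc (by omega) hSK
  refine ⟨⟨fun h E hE => h E (Abelian.of_cyclic hE.2.1), fun h E _ => ?_⟩,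
    ⟨fun h E hE => h E (Abelian.of_cyclic hE.2.1) (Or.inl hE.1), fun h E _ hg => ?_⟩,
    fun h E _ => ?_, ⟨fun h E hE => ?_, fun h E _ => ?_⟩⟩
  · -- (1)
    classical
    have hfin : Finite (G E) := inferInstanceAs (Finite (E.L ≃ₐ[E.K] E.L))
    have hfh : Finite (G E →* ℂˣ) := finite_hom (G E)
    have hfh' : Fintype (G E →* ℂˣ) := Fintype.ofFinite _
    have h1 : ∀ ψ : G E →* ℂˣ, ∃ n : ℕ, n ≠ 0 ∧ (allInv S hc).val E.K E.L (lin ψ) ^ n = 1 := by
      intro ψ
      have hR' : Pool.Agent.K4H74.ST.TrivOne (mapInv (QuotientGroup.mk'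
          (CommGroup.torsion ((ℂ ≃+* ℂ) → ℂˣ))) (allInv S hc)) := by
        intro K _ _
        change QuotientGroup.mk' _ ((allInv S hc).val K K (fun _ => 1)) = 1
        rw [hR K, map_one]
      have hC' : TrivCrit (mapInv (QuotientGroup.mk'
          (CommGroup.torsion ((ℂ ≃+* ℂ) → ℂˣ))) (allInv S hc)) ((-1) ^ k) := by
        intro K L _ _ _ _ _ _ hK ψ hψ
        change QuotientGroup.mk' _ ((allInv S hc).val K L (fun g => ((ψ g : ℂˣ) : ℂ))) = 1
        rw [hC K L hK ψ hψ, map_one]
      have h2 := all_tors he hm hR' hC' (split_tors hc h) E.K E.L (χ := lin ψ)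
        (isChr_iff.mp (isChr_lin ψ))
      obtain ⟨n, hn, h3⟩ := isOfFinOrder_iff_pow_eq_one.mp h2
      change QuotientGroup.mk' _ ((allInv S hc).val E.K E.L (lin ψ)) ^ n = 1 at h3
      rw [← map_pow, QuotientGroup.mk'_apply, QuotientGroup.eq_one_iff] at h3
      obtain ⟨n', hn', h4⟩ := isOfFinOrder_iff_pow_eq_one.mp h3
      exact ⟨n * n', by positivity, by rw [pow_mul]; exact h4⟩
    choose n hn hn' using h1
    refine ⟨∏ ψ, n ψ, Finset.prod_ne_zero_iff.mpr fun ψ _ => hn ψ,
      equality_of_pow hc fun ψ => ?_⟩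
    obtain ⟨j, hj⟩ := Finset.dvd_prod_of_mem n (Finset.mem_univ ψ)
    rw [hj, pow_mul, hn' ψ, one_pow]
  · -- (2)
    have hTE := ell_of hc h
    refine equality_of_pow hc fun ψ => ?_
    rw [pow_one]
    rcases hg with hK | ⟨hK, hcc⟩ | ⟨N, k1, k2, k3, k4, hN, hj⟩
    · exact all_cx he hm hR hC hTE E.K E.L hK (isChr_iff.mp (isChr_lin ψ))
    · refine all_par he hm hR hC hTE E.K E.L hK ψ fun t ⟨φ, hφ⟩ t' ⟨φ', hφ'⟩ => ?_
      rw [hcc t t' ⟨φ, fun x => (RingHom.congr_fun hφ x).symm⟩
        ⟨φ', fun x => (RingHom.congr_fun hφ' x).symm⟩]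
    · refine all_star he hm hR hC hTE E.K E.L N ?_ ?_ (isChr_iff.mp (isChr_lin ψ))
      · rintro H ⟨t, ⟨φ, hφ⟩, htH⟩ ψ hψ
        exact hN H ⟨t, htH, φ, fun x => (hφ.eq x)⟩ ψ hψ
      · intro h1
        apply hj
        by_contra h2
        rw [Nat.not_even_iff_odd] at h2
        rw [h2.neg_one_pow] at h1
        have h6 := congrArg Units.val h1
        rw [Units.val_neg, Units.val_one] at h6
        norm_num at h6
  · -- the square
    exact equality_of_pow hc fun ψ => all_sq he hm hR hC (ell_of hc h) E.K E.L
      (isChr_iff.mp (isChr_lin ψ))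
  · rcases hE with hE | hE
    · exact h E (Abelian.of_cyclic hE.2.1)
    · exact h E (Abelian.of_cyclic hE.2.2.1)
  · -- (3)
    refine equality_of_pow hc fun ψ => ?_
    rw [pow_one]
    exact all_mix he hm hR hC (ell_of hc fun E hE => h E (Or.inl hE))
      (mix_of hc fun E hE => h E (Or.inr hE)) E.K E.L (isChr_iff.mp (isChr_lin ψ))

end Pool.Agent.Results.MP_a93ca1_nt.CyclicReduction
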