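import Mathlib
import Pool.Agent.Run7.h375.BE.Asm
import Pool.Agent.Run7.h200.BK.Kum

/-!
# The equivariant Beilinson conjecture for Kummer extensions and inside extensions with a symmetric
group

The definitions of `IsLeadingAt`, `V`, `VPlus`, `BPlus`, `RegSystem`, `IsRegMap`, `Equality` are in
`Pool.Agent.Run7.h375.BE.Def`, those of `Ext`, `G`, `Pair`, `lin` in `Pool.Agent.K4H74.SC.Core`;
`⟨F, L⟩ : Ext` is the Galois extension `L / F`.
-/

set_option autoImplicit false

namespace Pool.Agent.Results.MP_a93ca1_nt.KummerAndSymmetric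

open NumberField Pool.Agent.K4H74.SK Pool.Agent.Run7.h375.BE

/-- `K ⊆ F ⊆ L`: there is a homomorphism `υ` from `Gal(L/K)` onto `(ℤ/p)ˣ` whose kernel is
`Gal(L/F)`, the group `Gal(L/F)` has exponent `p`, and `σ τ σ⁻¹ = τ ^ υ(σ)` for `σ ∈ Gal(L/K)`,
`τ ∈ Gal(L/F)`. -/
def AffineType (p : ℕ) (K F L : Type) [Field K] [Field F] [Field L] [Algebra K F] [Algebra F L]
    [Algebra K L] : Prop :=
  ∃ υ : (L ≃ₐ[K] L) →* (ZMod p)ˣ, Function.Surjective υ ∧
    (∀ σ, υ σ = 1 ↔ ∀ x : F, σ (algebraMap F L x) = algebraMap F L x) ∧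
    ∀ σ τ, υ τ = 1 → τ ^ p = 1 ∧ σ * τ * σ⁻¹ = τ ^ ((υ σ : (ZMod p)ˣ) : ZMod p).val

/-- Let `k > 1`, and let `c` be a system of leading coefficients at `s = 1-k` of the Artin
L-functions (such systems exist; the only one is `L*(χ, 1-k)`). Let `H(L) ⊆ V⁺ ⊗ ℂ` be a system of
rational subspaces with the formal properties of the images of `K_(2k-1)(L) ⊗ ℚ` under Borel's
regulator (`RegSystem k`). Suppose that the conclusion of Borel's theorem (the equality for `G`
trivial) is true for `H` and `c`. Then Beilinson's equality is true: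

(1) for the extension `L / F`, if `F = K(ζ_p)` for a number field `K` and a prime number `p` with
`[F : K] = p - 1`, and `L` is generated over `F` by elements `x` with `x ^ p ∈ K`;

(2) for the extension `L / F`, if `L / K` is a Galois extension such that `K ⊆ F ⊆ L` is of affine
type (for example if `Gal(L/K)` is the group of the affine maps of the field with `p` elements, and
`Gal(L/F)` is the group of the translations);

(3) for all extensions `H / F`, if `K ⊆ F ⊆ H ⊆ L` where `L / K` is a Galois extension whose group is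
the symmetric group `S_n` (for some `n`). -/
theorem result {k : ℕ} (_hk : 2 ≤ k) :
    -- leading coefficients
    (∃ c : Pair → ℂ, IsLeadingAt (1 - (k : ℂ)) c) ∧
    -- the isomorphisms in the definition of `Equality` exist
    (∀ (S : RegSystem k) (E : Ext), ∃ Φ : V E.L →ₗ[ℂ] V E.L, IsRegMap S Φ) ∧
    ∀ (S : RegSystem k) (c : Pair → ℂ), IsLeadingAt (1 - (k : ℂ)) c →
      -- the conclusion of Borel's theorem
      (∀ E : Ext, (∀ g : G E, g = 1) → Equality S c 1 E) →
      -- (1)
      (∀ p : ℕ, p.Prime → ∀ (K F L : Type) [Field K] [NumberField K] [Field F] [NumberField F]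
        [Field L] [NumberField L] [Algebra K F] [Algebra F L] [Algebra K L] [IsScalarTower K F L]
        [IsGalois K L] [IsGalois F L] (ζ : F), IsPrimitiveRoot ζ p →
        IntermediateField.adjoin K {ζ} = ⊤ → Module.finrank K F = p - 1 →
        IntermediateField.adjoin F {x : L | ∃ a : K, x ^ p = algebraMap K L a} = ⊤ →
        Equality S c 1 ⟨F, L⟩) ∧
      -- (2)
      (∀ p : ℕ, p.Prime → ∀ (K F L : Type) [Field K] [NumberField K] [Field F] [NumberField F]
        [Field L] [NumberField L] [Algebra K F] [Algebra F L] [Algebra K L] [IsScalarTower K F L]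
        [IsGalois K L] [IsGalois F L], AffineType p K F L → Equality S c 1 ⟨F, L⟩) ∧
      -- (3)
      (∀ (n : ℕ) (K F H L : Type) [Field K] [NumberField K] [Field F] [NumberField F] [Field H]
        [NumberField H] [Field L] [NumberField L] [Algebra K F] [Algebra F H] [Algebra F L]
        [Algebra H L] [Algebra K L] [IsScalarTower K F L] [IsScalarTower F H L] [IsGalois K L]
        [IsGalois F H], Nonempty (Equiv.Perm (Fin n) ≃* (L ≃ₐ[K] L)) →
        Equality S c 1 ⟨F, H⟩) := by
  refine ⟨exists_isLeadingAt _, fun S E => exists_regMap S E, fun S c hc hB => ?_⟩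
  have hR := allInv_one hc hB
  refine ⟨?_, ?_, ?_⟩
  · intro p hp K F L _ _ _ _ _ _ _ _ _ _ _ _ ζ hζ hF hdeg hL
    have : Fact p.Prime := ⟨hp⟩
    obtain ⟨υ, hυ⟩ := Run7.h200.BK.aff_kummer hζ hF hdeg hL
    refine equality_of_pow hc fun ψ => ?_
    rw [pow_one]
    exact Run7.h200.BK.val_aff (allInv S hc) hR K F L hυ ψ
  · rintro p hp K F L _ _ _ _ _ _ _ _ _ _ _ _ ⟨υ, hs, hk, ht⟩
    have : Fact p.Prime := ⟨hp⟩
    have hmem : ∀ g, g ∈ (Run7.h200.BK.up K F L).range ↔ υ g = 1 := fun g =>
      ⟨fun h => (hk g).mpr fun x => Run7.h200.BK.up_fix K F L h x,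
        fun h => Run7.h200.BK.mem_up K F L ((hk g).mp h)⟩
    have hυ : Run7.h200.BK.Aff p (Run7.h200.BK.up K F L).range υ := by
      refine ⟨?_, hs, fun n hn => (ht 1 n ((hmem n).mp hn)).1,
        fun g n hn => (ht g n ((hmem n).mp hn)).2⟩
      ext g
      rw [MonoidHom.mem_ker, hmem]
    refine equality_of_pow hc fun ψ => ?_
    rw [pow_one]
    exact Run7.h200.BK.val_aff (allInv S hc) hR K F L hυ ψ
  · rintro n K F H L _ _ _ _ _ _ _ _ _ _ _ _ _ _ _ _ _ ⟨e⟩
    refine equality_of_pow hc fun ψ => ?_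
    rw [pow_one]
    exact Run7.h200.BK.val_sn_inside (allInv S hc) hR K F H L e (isChr_iff.mp (isChr_lin ψ))

end Pool.Agent.Results.MP_a93ca1_nt.KummerAndSymmetric
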