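import Mathlib
import Pool.Agent.Run7.h767.ST.Neg

/-!
# The leading coefficients `L_S^*(χ, 1 - k)` by prime ideals

Let `K` be a number field, `𝔣` an ideal, `0 ≠ 𝔣 ≠ 𝓞 K`, `P` a set of real embeddings of `K`, `A` a
homomorphism from the ray class group modulo `𝔣 P` to a finite commutative group `G` (for an abelian
extension `L / K` with the group `G` and the modulus `𝔣 P`: the Artin map), `S` the set of the
archimedean places and of the prime divisors of `𝔣`, and `j` a natural number (`j = k - 1`, so that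
`1 - k = -j`).

(1) The functions `L_S(χ, s)`, `χ` a character of `G`, have analytic continuations to `ℂ ∖ {1}`, and at
`s = -j` they have a finite order `m_χ` and a leading coefficient `L_S^*(χ, -j) ≠ 0`.

(2) For every `γ > π / 2`

  `L_S^*(χ, -j) = t^(m_χ) e^(-m_χ Λ_γ) exp (∑_τ χ(τ) S_τ(t)) + O(1 / t)`,

  `S_τ(t) = ∑_(𝔭, i : A(𝔭 ^ i) = τ) (1 / i) N(𝔭)^(i j) e^(i γ u) / Γ(1 + u)`, `u = i log N(𝔭) / t`

(in the exponent `e^(i γ u)` the letter `i` is the imaginary unit), and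
`Λ_γ = ∫_0^∞ (e^(-t) - e^(i γ t) / Γ(1 + t)) dt / t`. The sums converge absolutely. This is
unconditional; no continuation and no zeros occur on the right: the prime ideals are sorted by their
classes (Frobenius automorphisms).

(3) So the element `L_S^*(-j) ∈ ℂ[G]` with `χ(L_S^*(-j)) = L_S^*(χ⁻¹, -j)` for all `χ` has the coefficients
`(1 / |G|) ∑_χ conj χ(g) t^(m_(χ⁻¹)) e^(-m_(χ⁻¹) Λ_γ) exp (∑_τ χ⁻¹(τ) S_τ(t)) + O(1 / t)`.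

In Q1 the number `L^*(χ, 1 - k)` is that of the primitive L-function; for `k > 1` it differs from
`L_S^*(χ, 1 - k)` by the factors `1 - χ(v) N(v)^(k - 1) ≠ 0` at the primes `v ∣ 𝔣` unramified in `χ`. These
are the images of an invertible element of `ℚ[G]`, so Q1 may be stated with `L_S^*(1 - k)`.
-/

set_option autoImplicit false
set_option linter.unusedSectionVars false

namespace Pool.Agent.Results.MP_a93ca1_nt.LeadingTermsByPrimes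

open NumberField Filter Topology Asymptotics

section defs

variable {K : Type} [Field K] [NumberField K] {G : Type} [Group G]

/-- `x` is positive at the real embeddings in `P`. -/
def Pos (P : Set (K →+* ℝ)) (x : 𝓞 K) : Prop := ∀ σ ∈ P, 0 < σ (x : K)

/-- On the ideals prime to `𝔣` the function `A` is a homomorphism from the ray class group modulo
`𝔣 P` to `G` (its values at the other ideals are irrelevant). -/
structure IsRayHom (𝔣 : Ideal (𝓞 K)) (P : Set (K →+* ℝ)) (A : Ideal (𝓞 K) → G) : Prop where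
  mul : ∀ 𝔞 𝔟, IsCoprime 𝔞 𝔣 → IsCoprime 𝔟 𝔣 → A (𝔞 * 𝔟) = A 𝔞 * A 𝔟
  ray : ∀ x : 𝓞 K, x - 1 ∈ 𝔣 → Pos P x → A (Ideal.span {x}) = 1

/-- `∑_(𝔞 prime to 𝔣) χ(A(𝔞)) N(𝔞)^(-s) = ∏_(v ∤ 𝔣) (1 - χ(A(v)) N(v)^(-s))⁻¹`. -/
noncomputable def lser (𝔣 : Ideal (𝓞 K)) (A : Ideal (𝓞 K) → G) (χ : G →* ℂˣ) (s : ℂ) : ℂ :=
  ∑' 𝔞 : {𝔞 : Ideal (𝓞 K) // IsCoprime 𝔞 𝔣},
    ((χ (A 𝔞.1) : ℂˣ) : ℂ) * ((Ideal.absNorm 𝔞.1 : ℕ) : ℂ) ^ (-s)

/-- `Z` is the analytic continuation of `L_S(χ, s)` to `ℂ ∖ {1}`, `S` the archimedean places and the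
primes which divide `𝔣`. -/
def IsL (𝔣 : Ideal (𝓞 K)) (A : Ideal (𝓞 K) → G) (χ : G →* ℂˣ) (Z : ℂ → ℂ) : Prop :=
  (∀ s : ℂ, s ≠ 1 → AnalyticAt ℂ Z s) ∧ ∀ s : ℂ, 1 < s.re → Z s = lser 𝔣 A χ s

/-- `Z` has the order `m` and the leading coefficient `c` at `-j`: `Z(s - j) = s^m g(s)` near `s = 0` with
`g` analytic at `0` and `g(0) = c ≠ 0`. -/
def Leads (j : ℕ) (Z : ℂ → ℂ) (m : ℕ) (c : ℂ) : Prop :=
  c ≠ 0 ∧ ∃ g : ℂ → ℂ, AnalyticAt ℂ g 0 ∧ g 0 = c ∧ ∀ᶠ s in 𝓝 (0 : ℂ), Z (s - j) = s ^ m * g s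

open Classical in
/-- `1 / k` if `𝔞 = 𝔭 ^ k` with a prime ideal `𝔭` and `k ≥ 1`, and `0` if `𝔞` is not such a power:
`log N(rad 𝔞) / log N(𝔞)`. -/
noncomputable def wt (𝔞 : Ideal (𝓞 K)) : ℝ :=
  if IsPrimePow 𝔞 then Real.log (Ideal.absNorm 𝔞.radical) / Real.log (Ideal.absNorm 𝔞) else 0

/-- `(1 / i) N(𝔞)^j e^(i γ u) / Γ(1 + u)`, `u = log N(𝔞) / T`, for `𝔞 = 𝔭 ^ i` (`wt 𝔞 = 1 / i`). -/
noncomputable def term (j : ℕ) (γ T : ℝ) (𝔞 : Ideal (𝓞 K)) : ℂ :=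
  (wt 𝔞 : ℂ) * Complex.exp ((γ * (Real.log (Ideal.absNorm 𝔞) / T) : ℝ) * Complex.I) *
    ((Real.Gamma (1 + Real.log (Ideal.absNorm 𝔞) / T))⁻¹ : ℝ) * ((Ideal.absNorm 𝔞 : ℕ) : ℂ) ^ j

/-- `S_τ(T)`: the sum over the powers of prime ideals prime to `𝔣` with `A(𝔭 ^ i) = τ`. -/
noncomputable def primeSum (j : ℕ) (𝔣 : Ideal (𝓞 K)) (A : Ideal (𝓞 K) → G) (τ : G) (γ T : ℝ) : ℂ :=
  ∑' 𝔞 : {𝔞 : Ideal (𝓞 K) // IsCoprime 𝔞 𝔣 ∧ A 𝔞 = τ}, term j γ T 𝔞.1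

/-- `Λ_γ = ∫_0^∞ (e^(-t) - e^(i γ t) / Γ(1 + t)) dt / t`. -/
noncomputable def Lam (γ : ℝ) : ℂ := ∫ t in Set.Ioi (0 : ℝ),
  (Complex.exp (-(t : ℂ)) - Complex.exp ((γ * t : ℝ) * Complex.I) *
    ((Real.Gamma (1 + t))⁻¹ : ℝ)) / t

/-- `E_χ(t) = t^m e^(-m Λ_γ) exp (∑_τ χ(τ) S_τ(t))`. -/
noncomputable def approx (j m : ℕ) (𝔣 : Ideal (𝓞 K)) (A : Ideal (𝓞 K) → G) (χ : G →* ℂˣ)
    (γ t : ℝ) : ℂ :=
  (t : ℂ) ^ m * Complex.exp (-(m * Lam γ)) *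
    Complex.exp (∑ᶠ τ : G, ((χ τ : ℂˣ) : ℂ) * primeSum j 𝔣 A τ γ t)

/-- `(1 / |G|) ∑_χ conj χ(g) x(χ⁻¹)`: the coefficient of `g` in the element `∑_g θ_g g` of `ℂ[G]` with
`∑_g χ(g) θ_g = x(χ⁻¹)` for all the characters `χ` of `G`. -/
noncomputable def coeff (x : (G →* ℂˣ) → ℂ) (g : G) : ℂ :=
  (Nat.card G : ℂ)⁻¹ * ∑ᶠ χ : G →* ℂˣ, (starRingEnd ℂ) ((χ g : ℂˣ) : ℂ) * x χ⁻¹

end defs

section proofs

variable {K : Type} [Field K] [NumberField K]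

open Classical in
lemma term_eq (j : ℕ) (γ T : ℝ) (𝔞 : Ideal (𝓞 K)) : term j γ T 𝔞 = Run7.h767.ST.tj j γ T 𝔞 := by
  have h : (wt 𝔞 : ℝ) = Pool.Agent.Y773.VM 𝔞 / Run7.h767.ST.lg 𝔞 := by
    unfold wt Pool.Agent.Y773.VM Run7.h767.ST.lg
    split_ifs
    · rfl
    · rw [zero_div]
  unfold term
  rw [h]
  rfl

lemma approx_eq {G : Type} [Group G] (j m : ℕ) (𝔣 : Ideal (𝓞 K)) (A : Ideal (𝓞 K) → G)
    (χ : G →* ℂˣ) (γ t : ℝ) :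
    approx j m 𝔣 A χ γ t = Run7.h767.ST.apJ j m 𝔣 A χ γ t := by
  have h : ∀ τ : G, primeSum j 𝔣 A τ γ t = Run7.h767.ST.SJ j 𝔣 A τ γ t := by
    intro τ
    unfold primeSum Run7.h767.ST.SJ
    exact tsum_congr fun 𝔞 => term_eq j γ t 𝔞.1
  unfold approx Run7.h767.ST.apJ
  simp only [h]
  rfl

end proofs

/-- See the header. -/
theorem result (K : Type) [Field K] [NumberField K] (P : Set (K →+* ℝ)) (𝔣 : Ideal (𝓞 K))
    (hbot : 𝔣 ≠ ⊥) (htop : 𝔣 ≠ ⊤) (G : Type) [Group G] [Finite G] (hG : ∀ a b : G, a * b = b * a)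
    (A : Ideal (𝓞 K) → G) (hA : IsRayHom 𝔣 P A) (j : ℕ) :
    -- (1) the continuations, orders and leading coefficients
    (∀ χ : G →* ℂˣ, (∃ Z, IsL 𝔣 A χ Z) ∧ ∃ (m : ℕ) (c : ℂ), ∀ Z, IsL 𝔣 A χ Z → Leads j Z m c) ∧
    ∀ (m : (G →* ℂˣ) → ℕ) (c : (G →* ℂˣ) → ℂ), (∀ χ Z, IsL 𝔣 A χ Z → Leads j Z (m χ) (c χ)) →
      ∀ γ : ℝ, Real.pi / 2 < γ →
        (∀ t > 0, Summable fun 𝔞 : Ideal (𝓞 K) => ‖term j γ t 𝔞‖) ∧
        -- (2) the leading coefficients by prime ideals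
        (∀ χ, (fun t : ℝ => approx j (m χ) 𝔣 A χ γ t - c χ) =O[atTop] fun t : ℝ => 1 / t) ∧
        -- (3) the element of the group ring
        ∀ θ : G → ℂ, (∀ χ : G →* ℂˣ, ∑ᶠ g : G, ((χ g : ℂˣ) : ℂ) * θ g = c χ⁻¹) → ∀ g : G,
          (fun t : ℝ => coeff (fun χ => approx j (m χ) 𝔣 A χ γ t) g - θ g) =O[atTop]
            fun t : ℝ => 1 / t := by
  classical
  have hA' : Run7.h767.ST.IsArt 𝔣 P A := ⟨hA.mul, hA.ray⟩
  refine ⟨fun χ => ⟨?_, Run7.h767.ST.lead_exists j hbot htop hA' χ⟩,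
    fun m c hmc γ hγ => ⟨fun t ht => ?_, ?_, fun θ hθ g => ?_⟩⟩
  · obtain ⟨Φ, hΦ, -⟩ := Run7.h767.ST.lc_exists hbot htop hA' χ
    exact ⟨Φ, hΦ⟩
  · exact (Run7.h767.ST.tj_summable j γ ht).congr fun 𝔞 => by rw [term_eq]
  all_goals
    have key : ∀ χ, (fun t : ℝ => approx j (m χ) 𝔣 A χ γ t - c χ) =O[atTop]
        fun t : ℝ => 1 / t := by
      intro χ
      obtain ⟨Φ, hΦ, -⟩ := Run7.h767.ST.lc_exists hbot htop hA' χ
      exact (Run7.h767.ST.lead_law_neg j hbot htop hA' χ hΦ (hmc χ Φ hΦ) hγ).congr_left fun t => by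
        rw [approx_eq]
  · exact key
  · have := Run7.h767.ST.finite_dual2 hG
    have := Fintype.ofFinite (G →* ℂˣ)
    have := Fintype.ofFinite G
    have h1 : θ g = (Nat.card G : ℂ)⁻¹ * ∑ χ : G →* ℂˣ,
        (starRingEnd ℂ) ((χ g : ℂˣ) : ℂ) * c χ⁻¹ := by
      rw [← Run7.h767.ST.inversion hG θ g]
      congr 1
      refine Finset.sum_congr rfl fun χ _ => ?_
      have h2 := hθ χ
      rw [finsum_eq_sum_of_fintype] at h2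
      rw [h2]
    have h3 : (fun t : ℝ => coeff (fun χ => approx j (m χ) 𝔣 A χ γ t) g - θ g) =
        fun t : ℝ => ∑ χ : G →* ℂˣ, ((Nat.card G : ℂ)⁻¹ * (starRingEnd ℂ) ((χ g : ℂˣ) : ℂ)) *
          (approx j (m χ⁻¹) 𝔣 A χ⁻¹ γ t - c χ⁻¹) := by
      funext t
      unfold coeff
      rw [h1, finsum_eq_sum_of_fintype, Finset.mul_sum, Finset.mul_sum, ← Finset.sum_sub_distrib]
      refine Finset.sum_congr rfl fun χ _ => ?_
      ring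
    rw [h3]
    refine IsBigO.fun_sum fun χ _ => ?_
    exact (key χ⁻¹).const_mul_left _

end Pool.Agent.Results.MP_a93ca1_nt.LeadingTermsByPrimes
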